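import Pool.Agent.Q57.UG.FgT

/-!
# Adjoint rings of toroidal pairs on arbitrary covers: finite generation, uniform bound

Let `V i`, `i = 1, ..., r`, be a projective variety of dimension `n i ≥ 1` in the projective
`M i`-space, and let `F (i, k)`, `k = 0, ..., n i`, be forms of degrees `d (i, k)` which have no common
zero on `V i`. Let `K` be any finite extension of the function field of the product
`V = V 1 × ... × V r`, of any degree and with any Galois group. The homogeneous coordinates of the
generic point of `V i` are `x i j`, `j = 0, ..., M i`. Suppose that the canonical divisor of `V i` is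
the multiple `κ i` of the hyperplane section: there is a rational differential form `Ω` of the maximal
degree such that the forms `Ω * ∏ i, (x i j) ^ (κ i)`, where `x i j` is a coordinate which is not zero
at a given point, are local generators of the canonical bundle of `V`. So
`logDiscrepancy F d κ x Ω P` is the log discrepancy of the pair `(V, ∑ (i, k), (F (i, k) = 0))` along
the prime divisor `P` over `V` (a divisorial place of `K`). In the theorem `Ω` may be any nonzero
rational form and `κ i` any integers.

**The pairs.** A prime divisor `P` has the vector `multiplicities F d x P` of the multiplicities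
`v (i, k)` of the hypersurface sections `F (i, k) = 0` along `P`. It is a vector of a face: for every
`i` some `v (i, k)` is zero. The divisors `K + Δ 1, ..., K + Δ p` are given by functions `ψ i` on
these vectors: the log discrepancy of `(X, Δ i)` along any prime divisor `P` over `X` is
`ψ i v + logDiscrepancy F d κ x Ω P`, `v` the vector of `P`, so that the `coefficient` of `P` in the
pullback of `K + Δ i` is `δ i P = 1 - ψ i v - logDiscrepancy F d κ x Ω P`. The functions `ψ i` are
homogeneous and, for example, linear on the cones of a subdivision of the fan of the faces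
(`AreLogDiscrepancies`): these are the toroidal divisors on the toroidal modifications `X` of the
covers of `V` which are unramified outside the zero sets of the forms, with arbitrary rational
coefficients (log canonical if `ψ i ≥ 0`, and the pairs are not klt if `ψ i` has zeros). The `K + Δ i`
are `ℚ`-linearly equivalent to pullbacks of toric divisors under a finite map to a product of weighted
projective spaces. The pairs are explained in detail in `MP_e23cd6_ag.UniformAbundanceOfCovers`.

**The theorem.** There is an integer `T` which depends only on the dimensions `n i`, the degrees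
`d (i, k)`, the integers `κ i` and the functions `ψ i`, such that the following holds for all `V i`,
all forms `F (i, k)` of these degrees, all fields `K` and all forms `Ω`. Let `R` be the multigraded
ring of all sections of all divisors `∑ i, μ i (K + Δ i)`, `μ ∈ ℕ ^ p`.

* (finite generation) `R` is a finitely generated algebra over the complex numbers.
* (uniform bound) `R` is integral over its subring which is generated by the sections of the
  `∑ i, μ i (K + Δ i)` with `∑ i, μ i ≤ T`. So `R` is a finite module over this subring.

For `p = 1` the ring is the log canonical ring of `(X, Δ)`. If `K + Δ` is pseudo-effective, the finite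
generation is one of the main predictions of the minimal model program for log canonical pairs (a
minimal model together with abundance for it implies it, and the log canonical model is `Proj R`); it
is known for klt pairs and `p = 1`, and (for all `p`) for klt pairs with big boundaries (Birkar,
Cascini, Hacon, McKernan). Here the pairs are log canonical, the boundaries are not big, and nothing
is assumed about the divisors `K + Δ i`. The second statement says that the sections of bounded degree
determine the models: for every `μ` the stable base locus of `∑ i, μ i (K + Δ i)` and the Iitaka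
fibration are given by polynomials in sections of degree at most `T`, for all covers of any degree.

The elements of the ring are given by the tuples of sections of `∑ i, μ i (K + Δ i)` for all `μ`,
almost all of them zero: a section is a function of `N` rational vector fields (a rational
`∑ i, μ i`-canonical form) with a condition at all divisorial places of `K`, and the tuple is written
as a polynomial in `p` variables.

The results `MP_c1e25c_ag.AdjointRings` and `MP_a27c81_ag.ProductAdjointRings` concern abelian covers
of a projective space and of products of projective spaces with one hypersurface in each factor; they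
have no bound.
-/

set_option autoImplicit false

open FF MvPolynomial Pool.Agent.W602.GT

namespace Pool.Agent.Results.MP_a27c81_ag.AdjointRingsOfCovers

/-- The index `(i, k)` of the `n i + 1` hypersurface sections of the variety `V i`. -/
abbrev Hypersurface {r : ℕ} (n : Fin r → ℕ) := (i : Fin r) × Fin (n i + 1)

section places

variable {r N p : ℕ} {n M : Fin r → ℕ} {K : Type} [Field K] [Algebra ℂ K]

/-- The ratios of the forms `F (i, k + 1)` and `F (i, 0)`, raised to powers of the same degree. -/
noncomputable def ratio (F : ∀ b : Hypersurface n, MvPolynomial (Fin (M b.1 + 1)) ℂ)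
    (d : Hypersurface n → ℕ) (x : ∀ i, Fin (M i + 1) → K) (b : (i : Fin r) × Fin (n i)) : K :=
  aeval (x b.1) (F ⟨b.1, b.2.succ⟩) ^ d ⟨b.1, 0⟩ /
    aeval (x b.1) (F ⟨b.1, 0⟩) ^ d ⟨b.1, b.2.succ⟩

/-- The forms `F (i, k)` have no common zero on `V i`, the variety of the points at which all forms
vanish which vanish at the generic point `x i`. -/
def NoCommonZeros (F : ∀ b : Hypersurface n, MvPolynomial (Fin (M b.1 + 1)) ℂ)
    (x : ∀ i, Fin (M i + 1) → K) : Prop :=
  ∀ i, ∀ y : Fin (M i + 1) → ℂ, y ≠ 0 →
    (∀ (G : MvPolynomial (Fin (M i + 1)) ℂ) (m : ℕ), G.IsHomogeneous m → aeval (x i) G = 0 →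
      eval y G = 0) → ∃ k, eval y (F ⟨i, k⟩) ≠ 0

/-- The minimal order at `P` of the homogeneous coordinates `y` of one factor. -/
noncomputable def minimalOrder {k : ℕ} (y : Fin (k + 1) → K) (P : Place ℂ K) : ℤ :=
  Finset.univ.inf' Finset.univ_nonempty fun j => P.ord (y j)

/-- The multiplicities of the hypersurface sections `F (i, k) = 0` along the prime divisor `P`; the
`x i j` are the homogeneous coordinates of the `i`-th factor, which are divided by one of minimal
order at `P`. -/
noncomputable def multiplicities (F : ∀ b : Hypersurface n, MvPolynomial (Fin (M b.1 + 1)) ℂ)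
    (d : Hypersurface n → ℕ) (x : ∀ i, Fin (M i + 1) → K) (P : Place ℂ K) (b : Hypersurface n) :
    ℕ :=
  (P.ord (aeval (x b.1) (F b)) - d b * minimalOrder (x b.1) P).toNat

/-- The order of the form `Ω` along `P`: the minimal order of its values at vector fields which are
regular at `P`. -/
noncomputable def formOrder (Ω : (Fin N → Derivation ℂ K K) → K) (P : Place ℂ K) : ℤ :=
  sInf {k : ℤ | ∃ D : Fin N → Derivation ℂ K K, (∀ c, DerReg P (D c)) ∧ Ω D ≠ 0 ∧
    P.ord (Ω D) = k}

/-- The log discrepancy along `P` of the product of the `V i`, with the boundary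
`∑ (i, k), (F (i, k) = 0)`, if the forms `Ω * ∏ i, (x i j) ^ (κ i)` are local generators of the
canonical bundle, `x i j` a coordinate of minimal order at `P`. -/
noncomputable def logDiscrepancy (F : ∀ b : Hypersurface n, MvPolynomial (Fin (M b.1 + 1)) ℂ)
    (d : Hypersurface n → ℕ) (κ : Fin r → ℤ) (x : ∀ i, Fin (M i + 1) → K)
    (Ω : (Fin N → Derivation ℂ K K) → K) (P : Place ℂ K) : ℤ :=
  formOrder Ω P + 1 - ∑ b, (multiplicities F d x P b : ℤ) + ∑ i, κ i * minimalOrder (x i) P

/-- The coefficient of `P` in the pullback of `K + Δ`, for the divisor with the function `ψ`: the log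
discrepancy along `P` is `ψ v + logDiscrepancy F d κ x Ω P`, `v` the vector of the multiplicities. -/
noncomputable def coefficient (F : ∀ b : Hypersurface n, MvPolynomial (Fin (M b.1 + 1)) ℂ)
    (d : Hypersurface n → ℕ) (κ : Fin r → ℤ) (x : ∀ i, Fin (M i + 1) → K)
    (Ω : (Fin N → Derivation ℂ K K) → K) (ψ : (Hypersurface n → ℕ) → ℚ) (P : Place ℂ K) : ℚ :=
  1 - ψ (multiplicities F d x P) - logDiscrepancy F d κ x Ω P

/-- The vectors of the faces: for every `i` one of the entries is zero. -/
def IsFaceVector (v : Hypersurface n → ℕ) : Prop := ∀ i, ∃ k, v ⟨i, k⟩ = 0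

/-- The functions `ψ i` on the vectors of the faces are homogeneous, and for a finite set `T` of
nonzero vectors of the faces every vector `v` of a face is a nonnegative combination of the vectors
in `T`, such that all `ψ i v` are at most the combinations of the values at the vectors in `T` (for
functions which are linear on the cones of a fan let `T` be the generators of the rays). -/
structure AreLogDiscrepancies (ψ : Fin p → (Hypersurface n → ℕ) → ℚ) : Prop where
  homogeneous : ∀ i v (k : ℕ), 1 ≤ k → IsFaceVector v → ψ i (k • v) = k * ψ i v
  finite : ∃ T : Finset (Hypersurface n → ℕ), (∀ s ∈ T, IsFaceVector s ∧ s ≠ 0) ∧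
    ∀ v, IsFaceVector v → ∃ w : (Hypersurface n → ℕ) → ℚ, (∀ s, 0 ≤ w s) ∧
      (∀ b, (v b : ℚ) = ∑ s ∈ T, w s * s b) ∧ ∀ i, ψ i v ≤ ∑ s ∈ T, w s * ψ i s

end places

section sections

variable {K : Type} [Field K] [Algebra ℂ K] {p : ℕ} (N : ℕ) (δ : Fin p → Place ℂ K → ℚ)

/-- `ω` is a section of `∑ i, μ i (K + Δ i)`: a rational section of the power of the canonical
bundle with the exponent `∑ i, μ i` (`IsPluri`: a function of `N` rational vector fields which is
multiplied by the power of `det B` under a linear substitution `B`) whose order on the vector fields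
which are regular at `P` is at least `- ∑ i, μ i * δ i P`, where `δ i P` is the coefficient of `P` in
the pullback of `K + Δ i`, for all prime divisors `P` (all divisorial places `P` of `K`). -/
def IsSection (μ : Fin p →₀ ℕ) (ω : (Fin N → Derivation ℂ K K) → K) : Prop :=
  IsPluri (∑ i, μ i) ω ∧ ∀ P : Place ℂ K, Divisorial N P →
    ∀ D : Fin N → Derivation ℂ K K, (∀ c, DerReg P (D c)) → ω D = 0 ∨
      - ∑ i, (μ i : ℚ) * δ i P ≤ P.ord (ω D)

/-- The multigraded ring of the sections of the divisors `∑ i, μ i (K + Δ i)`: the polynomials in `p`
variables, with values in the functions of `N` vector fields, whose coefficients are sections. -/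
def adjointRing : Set ((Fin N → Derivation ℂ K K) → MvPolynomial (Fin p) K) :=
  {f | ∀ μ, IsSection N δ μ fun D => coeff μ (f D)}

/-- The homogeneous elements of degree at most `T`: the sections of the divisors
`∑ i, μ i (K + Δ i)` with `∑ i, μ i ≤ T`. -/
def sectionsOfDegreeLE (T : ℕ) : Set ((Fin N → Derivation ℂ K K) → MvPolynomial (Fin p) K) :=
  {g | ∃ (μ : Fin p →₀ ℕ) (ω : (Fin N → Derivation ℂ K K) → K), ∑ i, μ i ≤ T ∧
    IsSection N δ μ ω ∧ g = fun D => monomial μ (ω D)}

end sections

/-- `R` is a finitely generated subalgebra of the complex algebra `W`. -/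
def IsFinitelyGenerated {W : Type} [CommRing W] [Algebra ℂ W] (R : Set W) : Prop :=
  ∃ G : Finset W, (Algebra.adjoin ℂ (G : Set W) : Set W) = R

/-- All elements of `R` are integral over the subalgebra which is generated by `S`. -/
def IsIntegralOver {W : Type} [CommRing W] [Algebra ℂ W] (R S : Set W) : Prop :=
  ∀ f ∈ R, IsIntegral (Algebra.adjoin ℂ S) f

/-- **The main theorem.** For given dimensions `n i`, degrees `d (i, k)`, integers `κ i` and functions
`ψ i` there is an integer `T` such that for all projective varieties `V i` of dimension `n i` with
`n i + 1` forms of the degrees `d (i, k)` without common zeros, all finite extensions `K` of the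
function field of the product and all forms `Ω` the multigraded ring of the sections of all
`∑ i, μ i (K + Δ i)` is a finitely generated algebra, and it is integral over the subalgebra which is
generated by its homogeneous elements of degree at most `T`. -/
theorem result (r N p : ℕ) (n : Fin r → ℕ) (hn : ∀ i, 1 ≤ n i) (hN1 : 1 ≤ N)
    (hN : N = ∑ i, n i) (d : Hypersurface n → ℕ) (hd : ∀ b, 1 ≤ d b) (κ : Fin r → ℤ)
    (ψ : Fin p → (Hypersurface n → ℕ) → ℚ) (hψ : AreLogDiscrepancies ψ) :
    ∃ T : ℕ, ∀ (K : Type) [Field K] [Algebra ℂ K] [Algebra.EssFiniteType ℂ K] (M : Fin r → ℕ)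
        (F : ∀ b : Hypersurface n, MvPolynomial (Fin (M b.1 + 1)) ℂ)
        (x : ∀ i, Fin (M i + 1) → K) (Ω : (Fin N → Derivation ℂ K K) → K)
        (δ : Fin p → Place ℂ K → ℚ),
        (∀ b, (F b).IsHomogeneous (d b)) → (∀ i j, x i j ≠ 0) → NoCommonZeros F x →
        IsTranscendenceBasis ℂ (ratio F d x) → IsPluri 1 Ω → Ω ≠ 0 →
        (∀ i, δ i = coefficient F d κ x Ω (ψ i)) →
        IsFinitelyGenerated (adjointRing N δ) ∧
          IsIntegralOver (adjointRing N δ) (sectionsOfDegreeLE N δ T) := by
  obtain ⟨T0, hT0, hT1⟩ := hψ.finite
  obtain ⟨T, H⟩ := Pool.Agent.Q57.UG.top_fg hn hN1 hN hd κ (p := p) (ψ := ψ)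
    ⟨T0, hψ.homogeneous, hT0, hT1⟩
  refine ⟨T, ?_⟩
  intro K _ _ _ M F x Ω δ hF hx hno hbas hΩ hΩ0 hδ
  obtain ⟨⟨G, hG⟩, h2⟩ := H K M F x Ω δ hF hx hno hbas hΩ hΩ0 fun i P => congrFun (hδ i) P
  refine ⟨⟨G, ?_⟩, fun f hf => h2 f hf⟩
  rw [hG]
  rfl

end Pool.Agent.Results.MP_a27c81_ag.AdjointRingsOfCovers
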