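import Pool.Agent.Q57.FH.Top

/-!
# Finite generation of adjoint rings of toroidal pairs on abelian covers of products of projective
spaces

Let `F i` be a form of degree `d i` in `n i + 1` variables whose zero set in the projective
`n i`-space is a smooth hypersurface, and let `H i` be the cyclic hypersurface `w ^ (d i) = F i` in
the projective `(n i + 1)`-space. Let `K` be the function field of a quotient
`Y = (H 1 × ... × H r) / G`, where `G` is any group of diagonal automorphisms
`w i ↦ ζ i * w i`, `ζ i ^ (d i) = 1`. Equivalently, `K` is generated by the affine coordinates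
`x i j / x i 0` of the product of the projective `n i`-spaces and by roots `z j`,
`z j ^ (m j) = ∏ i, (F i (x i) / x i 0 ^ (d i)) ^ (a j i)`, where `m j` divides `a j i * d i`: the
abelian covers of the product of the projective spaces which are branched along the hypersurfaces
`F i = 0` of the factors.

A prime divisor `P` over `Y` (a divisorial place of `K`) has the vector `multiplicities F d x P` of the
multiplicities `v i` of the hypersurfaces along `P`. The vectors `v ≠ 0` of nonnegative integers with
`m j ∣ ∑ i, a j i * v i` for all `j` are the `Admissible` ones.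

**The pairs.** The boundaries `Δ 1, ..., Δ p` are given by functions `c i`, with `c i ≤ 1`, on the
vectors: `- c i v` is the discrepancy of the pair `(X, Δ i)` along the divisors with the vector `v`.
So `c i v` is the coefficient of `Δ i` if `P` is a divisor on the variety. Examples are the toroidal
modifications `X` of `Y` (for example `X = Y`, or a toroidal minimal model of it), given by a
subdivision of the fan of the faces of the positive orthant, with any divisors
`Δ i = ∑ δ_{i, ρ} D_ρ` supported over the hypersurfaces with rational coefficients
`0 ≤ δ_{i, ρ} ≤ 1` (log canonical pairs): for `v ≠ 0`, `1 - c i v` is the function which is linear on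
the cones of the fan and equal to `1 - δ_{i, ρ}` at the generator `ρ` of a ray; the `w s` of
`AreBoundaries.finite` are the coefficients of `v` with respect to the generators of the rays of a
cone which contains `v`. If different models are used for the different `i`, take a common
refinement of the fans. The case `c i = 0` is that of the canonical divisor of a resolution of `Y`.

**The theorem.** The multigraded ring of all sections of all divisors `∑ i, μ i (K_X + Δ i)`,
`μ ∈ ℕ ^ p`, is a finitely generated algebra over the complex numbers. For `p = 1` this is the log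
canonical ring of `(X, Δ)`. Finite generation is one of the main predictions of the minimal model
program for log canonical pairs; it is known for klt pairs and `p = 1`, and (for all `p`) for klt
pairs with big boundaries (Birkar, Cascini, Hacon, McKernan). Here the pairs are log canonical, the
boundaries are not big, and nothing is assumed about the divisors `K_X + Δ i`.

The elements of the ring are given by the tuples of sections of `∑ i, μ i (K_X + Δ i)` for all `μ`,
almost all of them zero: a section is a function of `N = dim X` rational vector fields on `X` (a
rational `∑ i, μ i`-canonical form) with a condition at all divisorial places of `K`, and the tuple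
is written as a polynomial in `p` variables. The same theorem for abelian covers of one projective
space which are branched along normal crossings is `MP_c1e25c_ag.AdjointRings`.
-/

set_option autoImplicit false

open FF MvPolynomial Pool.Agent.W602.GT

namespace Pool.Agent.Results.MP_a27c81_ag.ProductAdjointRings

/-- The form `F` has no singular zeros: its partial derivatives have no common zero but `0`. -/
def Smooth {n : ℕ} (F : MvPolynomial (Fin (n + 1)) ℂ) : Prop :=
  ∀ x : Fin (n + 1) → ℂ, x ≠ 0 → ∃ l, eval x (pderiv l F) ≠ 0

/-- The affine coordinates of the product of the projective spaces. -/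
noncomputable def affine {r : ℕ} {n : Fin r → ℕ} {K : Type} [Field K]
    (x : ∀ i, Fin (n i + 1) → K) (b : (i : Fin r) × Fin (n i)) : K :=
  x b.1 b.2.succ / x b.1 0

section

variable {r R p : ℕ}

/-- The multiplicities which satisfy the divisibility conditions. -/
def Admissible (m : Fin R → ℕ) (a : Fin R → Fin r → ℕ) (v : Fin r → ℕ) : Prop :=
  v ≠ 0 ∧ ∀ j, m j ∣ ∑ i, a j i * v i

/-- The functions `c i` are the functions of the coefficients of boundaries: they are at most one
(the pairs are log canonical), the boundaries are supported over the hypersurfaces, the log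
discrepancies `1 - c i` are at most homogeneous along the rays, and for a finite set `T` of vectors
every admissible vector `v` is at least a nonnegative combination of the vectors in `T`, such that
all `1 - c i v` are at most the combinations of the values at the vectors in `T`. -/
structure AreBoundaries (m : Fin R → ℕ) (a : Fin R → Fin r → ℕ)
    (c : Fin p → (Fin r → ℕ) → ℚ) : Prop where
  zero : ∀ i, c i 0 = 0
  le_one : ∀ i v, c i v ≤ 1
  ray : ∀ i v (k : ℕ), 1 ≤ k → Admissible m a v → 1 - c i (k • v) ≤ k * (1 - c i v)
  finite : ∃ T : Finset (Fin r → ℕ), (∀ s ∈ T, Admissible m a s) ∧ ∀ v, Admissible m a v →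
    ∃ w : (Fin r → ℕ) → ℚ, (∀ s, 0 ≤ w s) ∧ (∀ k, ∑ s ∈ T, w s * s k ≤ v k) ∧
      ∀ i, 1 - c i v ≤ ∑ s ∈ T, w s * (1 - c i s)

/-- The multiplicities of the hypersurfaces `F i = 0` along the prime divisor `P`; the `x i j` are the
homogeneous coordinates of the `i`-th factor, which are divided by one of minimal order at `P`. -/
noncomputable def multiplicities {K : Type} [Field K] [Algebra ℂ K] {n : Fin r → ℕ}
    (F : ∀ i, MvPolynomial (Fin (n i + 1)) ℂ) (d : Fin r → ℕ) (x : ∀ i, Fin (n i + 1) → K)
    (P : Place ℂ K) (i : Fin r) : ℕ :=
  (P.ord (aeval (x i) (F i)) -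
    d i * Finset.univ.inf' Finset.univ_nonempty fun j => P.ord (x i j)).toNat

variable {K : Type} [Field K] [Algebra ℂ K]

/-- `ω` is a section of `∑ i, μ i (K + Δ i)`: a rational section of the power of the canonical
bundle with the exponent `∑ i, μ i` (`IsPluri`: a function of `N` rational vector fields which is
multiplied by the power of `det B` under a linear substitution `B`) whose order on the vector fields
which are regular at `P` is at least `- ∑ i, μ i * δ i P`, where `δ i P` is the coefficient of `Δ i`,
for all prime divisors `P` (all divisorial places `P` of `K`). -/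
def IsSection (N : ℕ) (δ : Fin p → Place ℂ K → ℚ) (μ : Fin p →₀ ℕ)
    (ω : (Fin N → Derivation ℂ K K) → K) : Prop :=
  IsPluri (∑ i, μ i) ω ∧ ∀ P : Place ℂ K, Divisorial N P →
    ∀ D : Fin N → Derivation ℂ K K, (∀ c, DerReg P (D c)) → ω D = 0 ∨
      - ∑ i, (μ i : ℚ) * δ i P ≤ P.ord (ω D)

/-- The multigraded ring of the sections of the divisors `∑ i, μ i (K + Δ i)`: the polynomials in `p`
variables, with values in the functions of `N` vector fields, whose coefficients are sections. -/
def adjointRing (N : ℕ) (δ : Fin p → Place ℂ K → ℚ) :
    Set ((Fin N → Derivation ℂ K K) → MvPolynomial (Fin p) K) :=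
  {f | ∀ μ, IsSection N δ μ fun D => coeff μ (f D)}

end

/-- **Finite generation of adjoint rings.** Let `K` be the function field of an abelian cover of the
product of the projective `n i`-spaces which is branched along smooth hypersurfaces `F i = 0` of the
factors, and let `Δ 1, ..., Δ p` be the boundaries which are given by `c`: the coefficient of `Δ i`
along a prime divisor `P` is `c i v`, where `v` is the vector of the multiplicities of the
hypersurfaces along `P`. Then the ring of the sections of all `∑ i, μ i (K + Δ i)`, `μ ∈ ℕ ^ p`, is
generated by finitely many elements as an algebra over the complex numbers. -/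
theorem result (r N R p : ℕ) (n d : Fin r → ℕ) (hr : 1 ≤ r) (hn : ∀ i, 1 ≤ n i)
    (hd : ∀ i, 1 ≤ d i) (hN : N = ∑ i, n i)
    (F : ∀ i, MvPolynomial (Fin (n i + 1)) ℂ) (hF : ∀ i, (F i).IsHomogeneous (d i))
    (hs : ∀ i, Smooth (F i)) (m : Fin R → ℕ) (hm : ∀ j, 1 ≤ m j) (a : Fin R → Fin r → ℕ)
    (hdiv : ∀ j i, m j ∣ a j i * d i)
    (K : Type) [Field K] [Algebra ℂ K] (x : ∀ i, Fin (n i + 1) → K) (hx0 : ∀ i, x i 0 ≠ 0)
    (hbas : IsTranscendenceBasis ℂ (affine x)) (z : Fin R → K)
    (hz : ∀ j, z j ^ m j = ∏ i, (aeval (x i) (F i) / x i 0 ^ d i) ^ a j i)
    (hgen : IntermediateField.adjoin ℂ (Set.range (affine x) ∪ Set.range z) = ⊤)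
    (c : Fin p → (Fin r → ℕ) → ℚ) (hc : AreBoundaries m a c)
    (δ : Fin p → Place ℂ K → ℚ) (hδ : ∀ i P, δ i P = c i (multiplicities F d x P)) :
    ∃ G : Finset ((Fin N → Derivation ℂ K K) → MvPolynomial (Fin p) K),
      (Algebra.adjoin ℂ (G : Set ((Fin N → Derivation ℂ K K) → MvPolynomial (Fin p) K)) :
        Set ((Fin N → Derivation ℂ K K) → MvPolynomial (Fin p) K)) = adjointRing N δ := by
  obtain ⟨G, hG⟩ := Pool.Agent.Q57.FH.main_fgh hr hn hN hd hF hs hx0 hbas hm hdiv hz hgen hc.zero
    hc.le_one hc.ray hc.finite hδ
  refine ⟨G, ?_⟩
  rw [hG]
  rfl

end Pool.Agent.Results.MP_a27c81_ag.ProductAdjointRings
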