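import Pool.Agent.Q47.GEO.Final

/-!
# Several log canonical pairs on toric bundles over quotients of complex tori

Let `X = V / Γ` be the quotient of a complex torus of any dimension by any finite group (with or
without fixed points and reflections, projective or not), and let `Y → X` be a toric bundle: a
locally trivial bundle whose fibre is a smooth complete toric variety, twisted by arbitrary line
bundles `c_i` on `X` (for example the projective bundle of a direct sum of line bundles). Let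
`Δ_0, ..., Δ_s` be effective `ℚ`-divisors on `Y` such that `D_j = m (K_Y + Δ_j)` is integral and such
that for each `j` the pair `(Y_v, Δ_j)` is log canonical for one fibre `Y_v` of `Y → X` (which may
depend on `j`; no condition over the other points, and the `Δ_j` need not be invariant under the
torus). For `t ∈ ℝ^(s+1)`, `t ≥ 0`, let `D(t) = ∑ t_j D_j`, and let `P(t)` be the polytope of the real
divisors `∑ β_i D_i`, `β_i ≥ 0`, of the class of `D(t)` on the fibre such that the difference of `D(t)`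
and `∑ β_i D_i` is a nef class of `X`. Let `Q` be the semigroup of the integral points
`(t, α) ∈ ℕ^(s+1) × ℕ^ι` of the cone of all `(t, β)`, `β ∈ P(t)` (with `α` in the integral class).

The theorem describes the multigraded ring `R = ⨁ H^0(Y, D(t))`, `t ∈ ℕ^(s+1)` (the adjoint ring).

* Each monomial `x ^ α` in a section of `D(t)` has `(t, α) ∈ Q`. So `R` is the sum of the spaces
  `H^0(X, M_(t, α)) x ^ α`, `(t, α) ∈ Q`, where `M_(t, α) = ⨂ L_j ^ t_j ⊗ ⨂ c_i ^ (- α_i)`.
* `Q` is finitely generated, and its real points are the polytopes `P(t)`.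
* All `M_(t, α)`, `(t, α) ∈ Q`, are semiample, and there is an exponent which works for all of them.
  (For semiample line bundles on a compact variety the multigraded ring of sections over a finitely
  generated semigroup is finitely generated, by a theorem of Zariski.)
* For each line bundle `A` on `Y` the monomials of the sections of `D(t) + A` are at a bounded distance
  from the elements of `Q`, uniformly in `t`. In particular the asymptotic order of vanishing of
  `D(t)` along each divisorial valuation `w` over `Y` is the minimum of `w(x ^ β)`, `β ∈ P(t)`.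
* The cone of the `t` such that `D(t)` is pseudo-effective is rational polyhedral: it is spanned by
  the `T_l` of the generators `(T_l, a_l)` of `Q`, and for them a multiple of `D(T_l)` is effective. If
  `t ∈ ℕ^(s+1)` is not in it, then for each `A` the line bundles `k D(t) + A` have no nonzero sections
  for large `k`.
* There are finitely many hyperplanes in `ℝ^(s+1)` with rational equations such that
  `P(t + t') = P(t) + P(t')` if no one of them separates `t` and `t'`. So on each of the finitely many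
  chambers the asymptotic orders of vanishing of `D(t)` along all valuations at the same time are
  linear in `t`: there are finitely many ample models, and the thresholds of the minimal model program
  with scaling are rational and finite in number.

`IsSmoothFan`, `LinEquiv`, `IsSection`, `IsLogPluricanonical` and `IsLogCanonical` are defined in
`Pool.Agent.Q47.TB.Defs`, `IsTorusQuotient` and `LineBundle` (given by a factor of automorphy `L.e`)
in `Pool.Agent.W594.SYZ.Defs2`, `IsChernForm` and `IsNefForm` in `Pool.Agent.W594.SYZ.TQDefs` and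
`IsRamification` in `Pool.Agent.TH735.AQ.MirDefs`.

The proof. The projective bundle `Y' = P(⨁ D_j)` over `Y` is a toric bundle over `X`, and the
divisor of the section `∏ z_k ^ m ∑ z_j F_j`, where `F_j` defines `m Δ_j`, makes it a log canonical pair
of which the adjoint divisor is the tautological divisor. The classes of the sections of the multiples
of the tautological divisor give the semigroup `Q`, and one can use the result for one pair (the class
of `K_X + B` is nonnegative in the directions fixed by the reflections, and on a root of a reflection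
nonnegativity is an inequality with integral coefficients).
-/

set_option autoImplicit false

universe u w

namespace Pool.Agent.Results.MP_a27c81_ag.ToricBundleGeography

open Pool.Agent.W594.SYZ2 Pool.Agent.TH735.AQ Q47.TB MvPolynomial

variable {V : Type u} [NormedAddCommGroup V] [NormedSpace ℂ V] {Γ : Subgroup (V ≃ᵃ[ℂ] V)}
  {ι : Type w} [Fintype ι] {n s : ℕ}

/-- The semigroup `Q` of the pairs `(t, α)` such that `∑ α_i D_i` is of the class of `∑ t_j d_j` on the
fibre and the class `∑ t_j H_j - ∑ α_i Hc_i` on the base is nef. -/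
def semigroup (r : ι → Fin n → ℤ) (d : Fin (s + 1) → ι → ℤ) (H : Fin (s + 1) → V → V → ℂ)
    (Hc : ι → V → V → ℂ) : Set ((Fin (s + 1) → ℕ) × (ι → ℕ)) :=
  {p | LinEquiv r (fun i => (p.2 i : ℤ)) (fun i => ∑ j, (p.1 j : ℤ) * d j i) ∧
    IsNefForm fun v w => ∑ j, (p.1 j : ℂ) * H j v w - ∑ i, (p.2 i : ℂ) * Hc i v w}

/-- The polytope `P(t)` of the real divisors `∑ β_i D_i`, `β_i ≥ 0`, of the class of `∑ t_j d_j` on the
fibre such that the class `∑ t_j H_j - ∑ β_i Hc_i` on the base is nef. -/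
def polytope (r : ι → Fin n → ℤ) (d : Fin (s + 1) → ι → ℤ) (H : Fin (s + 1) → V → V → ℂ)
    (Hc : ι → V → V → ℂ) (t : Fin (s + 1) → ℝ) : Set (ι → ℝ) :=
  {β | (∀ i, 0 ≤ β i) ∧ (∃ q : Fin n → ℝ, ∀ i, β i = ∑ j, t j * d j i + ∑ k, q k * r i k) ∧
    IsNefForm fun v w => ∑ j, (t j : ℂ) * H j v w - ∑ i, (β i : ℂ) * Hc i v w}

/-- Let `X = V / Γ` be a torus quotient, let `ρ` define the ramification divisor of `V → X`, let
`Y → X` be the toric bundle given by a smooth complete fan with the rays `r i` and by line bundles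
`c i` on `X` with Chern forms `Hc i`, let `F j` define the effective divisor `m Δ_j` on `Y`
(`j = 0, ..., s`, `s ≥ 1`), and let `D_j = O_Y(m (K_Y + Δ_j))` be the line bundle on `Y` given by the
class of `D j = d j - m (1, ..., 1)` and by `L j`, with Chern forms `H j`. Assume that for each `j` the
fibre `(Y_v, Δ_j)` is log canonical for some `v = v₀ j`. Let `D(t) = ∑ t_j D_j`.

There are finitely many `(T_l, a_l) ∈ ℕ^(s+1) × ℕ^ι`, `T_l ≠ 0`, such that

(1) the semigroup `Q` consists of the sums of the `(T_l, a_l)`,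

(2) for all real `t ≥ 0` the polytope `P(t)` consists of the `∑ λ_l a_l`, `λ_l ≥ 0`, `∑ λ_l T_l = t`,

(3) for all sections `G` of `D(t)`, `t ∈ ℕ^(s+1)`, all monomials `x ^ α` in `G` have `(t, α) ∈ Q`,

(4) there is `N ≥ 1` such that for all `(t, α) ∈ Q` and all `v₁` there is `f` with `f v₁ ≠ 0` such that
`f x ^ (N α)` is a section of `N D(t)`,

(5) for each line bundle `A = O_Y(b; M)` there is a number `C` such that for all `t ∈ ℕ^(s+1)` and all
sections `G` of `D(t) + A` each monomial `x ^ α` in `G` has a `(t', α') ∈ Q` with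
`|t_j - t'_j| ≤ C` and `|α_i - α'_i| ≤ C`,

(6) if `t ∈ ℕ^(s+1)` and `P(t)` is empty, then for each line bundle `A = O_Y(b; M)` the line bundle
`k D(t) + A` has no nonzero sections for large `k`; if `P(t)` is not empty, then there are `k ≥ 1` and
`α` with `(k t, α) ∈ Q`,

(7) there are finitely many vectors `w` with integral coordinates such that
`P(t + t') = P(t) + P(t')` for all real `t, t' ≥ 0` with `⟨w, t⟩ ⟨w, t'⟩ ≥ 0` for all these `w`. -/
theorem result [FiniteDimensional ℂ V] (Γ : Subgroup (V ≃ᵃ[ℂ] V)) (hΓ : IsTorusQuotient Γ)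
    (ρ : V → ℂ) (hρ : IsRamification Γ ρ)
    (n : ℕ) (r : ι → Fin n → ℤ) (S : Set (Set ι)) (hS : IsSmoothFan r S)
    (c : ι → LineBundle Γ) (Hc : ι → V → V → ℂ) (hc : ∀ i, IsChernForm (c i) (Hc i))
    (s : ℕ) (hs : 1 ≤ s) (m : ℕ) (hm : 1 ≤ m) (d : Fin (s + 1) → ι → ℤ)
    (F : Fin (s + 1) → V → MvPolynomial ι ℂ) (L : Fin (s + 1) → LineBundle Γ)
    (H : Fin (s + 1) → V → V → ℂ) (hL : ∀ j, IsChernForm (L j) (H j))
    (hF : ∀ j, Q47.TB.IsLogPluricanonical r c m ρ (d j) (F j) (L j))
    (v₀ : Fin (s + 1) → V) (hlc : ∀ j, IsLogCanonical S m (F j (v₀ j)))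
    (D : Fin (s + 1) → ι → ℤ) (hD : D = fun j i => d j i - m) :
    ∃ (p : ℕ) (T : Fin p → Fin (s + 1) → ℕ) (a : Fin p → ι → ℕ),
      (∀ l, T l ≠ 0 ∧ (T l, a l) ∈ semigroup r D H Hc) ∧
      (∀ t α, (t, α) ∈ semigroup r D H Hc →
        ∃ μ : Fin p → ℕ, (∀ j, t j = ∑ l, μ l * T l j) ∧ ∀ i, α i = ∑ l, μ l * a l i) ∧
      (∀ t : Fin (s + 1) → ℝ, (∀ j, 0 ≤ t j) → ∀ β, β ∈ polytope r D H Hc t ↔
        ∃ x : Fin p → ℝ, (∀ l, 0 ≤ x l) ∧ (∀ j, t j = ∑ l, x l * T l j) ∧
          ∀ i, β i = ∑ l, x l * (a l i : ℝ)) ∧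
      (∀ (t : Fin (s + 1) → ℕ) (G : V → MvPolynomial ι ℂ),
        IsSection r c (fun i => ∑ j, (t j : ℤ) * D j i) (fun γ v => ∏ j, (L j).e γ v ^ t j) G →
          ∀ (v : V) (α : ι →₀ ℕ), coeff α (G v) ≠ 0 → (t, (α : ι → ℕ)) ∈ semigroup r D H Hc) ∧
      (∃ N : ℕ, 1 ≤ N ∧ ∀ t α, (t, α) ∈ semigroup r D H Hc → ∀ v₁, ∃ f : V → ℂ, f v₁ ≠ 0 ∧
        IsSection r c (fun i => N * ∑ j, (t j : ℤ) * D j i)
          (fun γ v => (∏ j, (L j).e γ v ^ t j) ^ N)
          fun v => monomial (Finsupp.equivFunOnFinite.symm fun i => N * α i) (f v)) ∧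
      (∀ (M : LineBundle Γ) (HM : V → V → ℂ), IsChernForm M HM → ∀ b : ι → ℤ,
        ∃ C : ℕ, ∀ (t : Fin (s + 1) → ℕ) (G : V → MvPolynomial ι ℂ),
          IsSection r c (fun i => ∑ j, (t j : ℤ) * D j i + b i)
            (fun γ v => (∏ j, (L j).e γ v ^ t j) * M.e γ v) G → ∀ v α, coeff α (G v) ≠ 0 →
              ∃ t' α', (t', α') ∈ semigroup r D H Hc ∧ (∀ j, |(t j : ℤ) - t' j| ≤ C) ∧
                ∀ i, |(α i : ℤ) - α' i| ≤ C) ∧
      (∀ t : Fin (s + 1) → ℕ, (polytope r D H Hc (fun j => t j) = ∅ →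
        ∀ (M : LineBundle Γ) (HM : V → V → ℂ), IsChernForm M HM → ∀ b : ι → ℤ,
          ∃ k₀ : ℕ, ∀ k : ℕ, k₀ ≤ k → ∀ G : V → MvPolynomial ι ℂ,
            IsSection r c (fun i => ∑ j, ((k * t j : ℕ) : ℤ) * D j i + b i)
              (fun γ v => (∏ j, (L j).e γ v ^ (k * t j)) * M.e γ v) G → ∀ v, G v = 0) ∧
        (polytope r D H Hc (fun j => t j) ≠ ∅ →
          ∃ k : ℕ, 1 ≤ k ∧ ∃ α, ((fun j => k * t j), α) ∈ semigroup r D H Hc)) ∧
      ∃ W : Finset (Fin (s + 1) → ℤ), ∀ t t' : Fin (s + 1) → ℝ, (∀ j, 0 ≤ t j) → (∀ j, 0 ≤ t' j) →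
        (∀ w ∈ W, 0 ≤ (∑ j, (w j : ℝ) * t j) * ∑ j, (w j : ℝ) * t' j) →
          polytope r D H Hc (fun j => t j + t' j)
            = {β | ∃ β₁ ∈ polytope r D H Hc t, ∃ β₂ ∈ polytope r D H Hc t', β = β₁ + β₂} := by
  classical
  obtain ⟨p, T, a, h1, h2, h3, h4, h5⟩ := Q47.GEO.geo hΓ hρ hS hs hc hL hF
    (fun j => (F j (v₀ j)).support) (fun j _ hα => ⟨v₀ j, mem_support_iff.1 hα⟩)
    (fun j => weights_of_lc hm (hlc j)) hD
  have h3' : ∀ t : Fin (s + 1) → ℝ, (∀ j, 0 ≤ t j) →
      polytope r D H Hc t = Q47.GEO.fib T a t := h3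
  refine ⟨p, T, a, h1, h2, fun t ht β => ?_, fun t G hG v α hα => Q47.GEO.mem_Q hΓ hc hL hG hα,
    h4, fun M HM hM b => ?_, fun t => ⟨fun ht M HM hM b => ?_, fun ht => ?_⟩, ?_⟩
  · rw [h3' t ht]
    exact Iff.rfl
  · obtain ⟨W, hW⟩ := h5 M HM hM b
    refine ⟨∑ w ∈ W, (∑ j, (w.1 j).natAbs + ∑ i, (w.2 i).natAbs), fun t G hG v α hα => ?_⟩
    obtain ⟨w, hw, μ, h6, h7⟩ := hW t G hG v α hα
    have h8 : (∑ j, (w.1 j).natAbs + ∑ i, (w.2 i).natAbs)
        ≤ ∑ w ∈ W, (∑ j, (w.1 j).natAbs + ∑ i, (w.2 i).natAbs) :=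
      Finset.single_le_sum (f := fun w : (Fin (s + 1) → ℤ) × (ι → ℤ) =>
        (∑ j, (w.1 j).natAbs + ∑ i, (w.2 i).natAbs)) (fun _ _ => Nat.zero_le _) hw
    refine ⟨_, _, Q47.GEO.mem_Q_comb (fun l => (h1 l).2) μ, fun j => ?_, fun i => ?_⟩
    · have h9 : (w.1 j).natAbs ≤ ∑ j, (w.1 j).natAbs :=
        Finset.single_le_sum (f := fun j => (w.1 j).natAbs) (fun _ _ => Nat.zero_le _)
          (Finset.mem_univ j)
      have h10 : (t j : ℤ) - ((∑ l, μ l * T l j : ℕ) : ℤ) = w.1 j := by
        rw [h6 j]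
        push_cast
        ring
      rw [h10, Int.abs_eq_natAbs]
      exact_mod_cast h9.trans ((Nat.le_add_right _ _).trans h8)
    · have h9 : (w.2 i).natAbs ≤ ∑ i, (w.2 i).natAbs :=
        Finset.single_le_sum (f := fun i => (w.2 i).natAbs) (fun _ _ => Nat.zero_le _)
          (Finset.mem_univ i)
      have h10 : (α i : ℤ) - ((∑ l, μ l * a l i : ℕ) : ℤ) = w.2 i := by
        rw [h7 i]
        push_cast
        ring
      rw [h10, Int.abs_eq_natAbs]
      exact_mod_cast h9.trans ((Nat.le_add_left _ _).trans h8)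
  · obtain ⟨W, hW⟩ := h5 M HM hM b
    by_contra hcon
    push Not at hcon
    obtain ⟨K, hK, ν, hν⟩ := Q47.GEO.dickson T (W.image Prod.fst) t (by
      rw [Filter.frequently_atTop]
      intro k₀
      obtain ⟨k, hk, G, hG, v, hv⟩ := hcon k₀
      refine ⟨k, hk, ?_⟩
      obtain ⟨α, hα⟩ := MvPolynomial.support_nonempty.2 hv
      obtain ⟨w, hw, μ, h6, -⟩ := hW (fun j => k * t j) G hG v α (mem_support_iff.1 hα)
      exact ⟨w.1, Finset.mem_image_of_mem _ hw, μ, h6⟩)
    have hKR : (0 : ℝ) < K := by exact_mod_cast hK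
    have h6 : (fun i => ∑ l, ((ν l : ℝ) / K) * (a l i : ℝ)) ∈ Q47.GEO.fib T a fun j => (t j : ℝ) := by
      refine ⟨fun l => (ν l : ℝ) / K, fun l => by positivity, fun j => ?_, fun i => rfl⟩
      have h7 : (K : ℝ) * t j = ∑ l, (ν l : ℝ) * T l j := by exact_mod_cast hν j
      have h8 : ∑ l, (ν l : ℝ) / K * T l j = (∑ l, (ν l : ℝ) * T l j) / K := by
        rw [Finset.sum_div]
        exact Finset.sum_congr rfl fun l _ => by ring
      rw [h8, ← h7]
      field_simp
    rw [← h3' _ fun j => Nat.cast_nonneg _, ht] at h6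
    exact h6
  · obtain ⟨β, hβ⟩ := Set.nonempty_iff_ne_empty.2 ht
    rw [h3' _ fun j => Nat.cast_nonneg _] at hβ
    obtain ⟨x, hx, hxt, -⟩ := hβ
    obtain ⟨K, hK, ν, hν⟩ := Q47.GEO.integral (fun l => (h1 l).1) hx hxt
    refine ⟨K, hK, fun i => ∑ l, ν l * a l i, ?_⟩
    have h6 := Q47.GEO.mem_Q_comb (fun l => (h1 l).2) ν
    have h7 : (fun j => K * t j) = fun j => ∑ l, ν l * T l j := funext hν
    rw [h7]
    exact h6
  · obtain ⟨W, hW⟩ := Q47.GEO.chambers T (fun l => (h1 l).1) a
    refine ⟨W, fun t t' ht ht' htt => ?_⟩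
    rw [h3' t ht, h3' t' ht', h3' (fun j => t j + t' j) fun j => add_nonneg (ht j) (ht' j)]
    exact hW t t' htt

end Pool.Agent.Results.MP_a27c81_ag.ToricBundleGeography
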